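import Mathlib
import Pool.Agent.V5helper60.GM.Stm2

/-!
# JOB GLN of project GM (helper60)
-/

set_option autoImplicit false

namespace Pool.Agent.V5helper69.GM

open Pool.Agent.V5helper60.GM
open scoped commutatorElement

theorem t_GLN : S_GLN := by
  intro p _ G _ _ r hl n hn f a b
  classical
  have : Fintype G := Fintype.ofFinite G
  have hp : p.Prime := Fact.out
  -- the commutator
  have hmem : ⁅a, b⁆ ∈ commutator G := by
    rw [commutator_def]
    exact Subgroup.commutator_mem_commutator (Subgroup.mem_top a) (Subgroup.mem_top b)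
  have key : orderOf (f ⁅a, b⁆) = 1 := by
    by_contra hne
    obtain ⟨l, hlp, hld⟩ := Nat.exists_prime_and_dvd hne
    have h1 : l ∣ Nat.card (commutator G) := by
      refine (hld.trans (orderOf_map_dvd f ⁅a, b⁆)).trans ?_
      have h2 : orderOf (⟨⁅a, b⁆, hmem⟩ : commutator G) ∣ Nat.card (commutator G) :=
        orderOf_dvd_natCard _
      rwa [Subgroup.orderOf_mk] at h2
    obtain ⟨hlp', hj⟩ := hl l hlp h1
    have h3 : l ∣ Nat.card (Matrix.GeneralLinearGroup (Fin n) (ZMod p)) :=
      hld.trans (orderOf_dvd_natCard _)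
    rw [Matrix.card_GL_field] at h3
    rw [Prime.dvd_finsetProd_iff hlp.prime] at h3
    obtain ⟨i, -, hi⟩ := h3
    have hin : (i : ℕ) < n := i.2
    rw [ZMod.card] at hi
    have h4 : p ^ n - p ^ (i : ℕ) = p ^ (i : ℕ) * (p ^ (n - i) - 1) := by
      rw [Nat.mul_sub, mul_one, ← pow_add, Nat.add_sub_cancel' hin.le]
    rw [h4, hlp.dvd_mul] at hi
    rcases hi with hi | hi
    · exact hlp' ((Nat.prime_dvd_prime_iff_eq hlp hp).1 (hlp.dvd_of_dvd_pow hi))
    · exact hj (n - i) (by omega) (by omega) hi
  rw [orderOf_eq_one_iff, map_commutatorElement] at key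
  exact commutatorElement_eq_one_iff_mul_comm.1 key

end Pool.Agent.V5helper69.GM
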