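import Pool.Agent.V5helper60.GM.Stm6

/-!
# Project GM, job TRAM: total ramification of `p` in the field of the `p ^ N`-th roots of unity
-/

set_option autoImplicit false

namespace Pool.Agent.V5helper69.GM.TRAM

open IntermediateField NumberField Pool.Agent.Q60.MU Pool.Agent.W5h77.MB
open scoped Pointwise

section gen

variable {F Ω : Type} [Field F] [Field Ω] [Algebra F Ω]

theorem coe_smul (σ : Gal(Ω/F)) (x : 𝓞 Ω) : ((σ • x : 𝓞 Ω) : Ω) = σ x := rfl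

theorem smulComm (M : IntermediateField F Ω) :
    SMulCommClass M.fixingSubgroup (𝓞 M) (𝓞 Ω) := by
  refine ⟨fun g a b => ?_⟩
  apply RingOfIntegers.ext
  rw [Subgroup.smul_def, Subgroup.smul_def, coe_smul, Algebra.smul_def, Algebra.smul_def]
  show g.1 ((algebraMap (𝓞 M) (𝓞 Ω) a : 𝓞 Ω) * (b : Ω)) =
    (algebraMap (𝓞 M) (𝓞 Ω) a : 𝓞 Ω) * g.1 b
  rw [map_mul]
  congr 1
  exact g.2 (a : M)

theorem isInv [IsGalois F Ω] (M : IntermediateField F Ω) :
    Algebra.IsInvariant (𝓞 M) (𝓞 Ω) M.fixingSubgroup := by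
  refine ⟨fun b hb => ?_⟩
  have h1 : (b : Ω) ∈ M := by
    rw [← InfiniteGalois.fixedField_fixingSubgroup M]
    intro g
    exact congrArg (fun z : 𝓞 Ω => (z : Ω)) (hb g)
  refine ⟨⟨⟨b, h1⟩, ?_⟩, ?_⟩
  · have h3 : IsIntegral ℤ (algebraMap M Ω ⟨b, h1⟩) := b.2
    exact (isIntegral_algebraMap_iff (algebraMap M Ω).injective).1 h3
  · apply RingOfIntegers.ext
    rfl

end gen

section
variable {F Ω : Type} [Field F] [Field Ω] [Algebra F Ω] [IsGalois F Ω]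

/-- Elements of inertia groups of finite Galois extensions lift to inertia elements. -/
theorem lift_inertia (M : IntermediateField F Ω) [NumberField M] [IsGalois F M]
    (P : Ideal (𝓞 M)) (Q : Ideal (𝓞 Ω)) (hQm : Q.IsMaximal) (hQP : Q.LiesOver P)
    (γ : M ≃ₐ[F] M) (hγ : γ ∈ P.inertia (M ≃ₐ[F] M)) :
    ∃ τ : Gal(Ω/F), (∀ x : 𝓞 Ω, τ • x - x ∈ Q) ∧ AlgEquiv.restrictNormalHom M τ = γ := by
  classical
  have hclosed : IsClosed (M.fixingSubgroup : Set Gal(Ω/F)) :=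
    InfiniteGalois.fixingSubgroup_isClosed M
  have hcomm : SMulCommClass M.fixingSubgroup (𝓞 M) (𝓞 Ω) := smulComm M
  have hinv : Algebra.IsInvariant (𝓞 M) (𝓞 Ω) M.fixingSubgroup := isInv M
  have hcpt : CompactSpace M.fixingSubgroup := isCompact_iff_compactSpace.1 hclosed.isCompact
  let _ : TopologicalSpace (𝓞 Ω) := ⊥
  have : DiscreteTopology (𝓞 Ω) := ⟨rfl⟩
  have hcont : ContinuousSMul Gal(Ω/F) (𝓞 Ω) := by
    rw [continuousSMul_iff_stabilizer_isOpen]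
    intro x
    have h1 := stabilizer_isOpen_of_isIntegral (K := F) (x : Ω)
    convert h1 using 2
    ext g
    rw [MulAction.mem_stabilizer_iff, MulAction.mem_stabilizer_iff]
    constructor
    · intro h
      exact congrArg (fun z : 𝓞 Ω => (z : Ω)) h
    · intro h
      exact RingOfIntegers.ext h
  have hcontU : ContinuousSMul M.fixingSubgroup (𝓞 Ω) := inferInstance
  obtain ⟨g0, hg0⟩ := AlgEquiv.restrictNormalHom_surjective (F := F) (K₁ := M) Ω γ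
  have hres : ∀ a : 𝓞 M, g0 • (algebraMap (𝓞 M) (𝓞 Ω) a) =
      algebraMap (𝓞 M) (𝓞 Ω) (γ • a) := by
    intro a
    apply RingOfIntegers.ext
    rw [coe_smul]
    have := AlgEquiv.restrictNormal_commutes g0 M (a : M)
    rw [← hg0]
    exact this.symm
  have hres' : ∀ a : 𝓞 M, g0⁻¹ • (algebraMap (𝓞 M) (𝓞 Ω) a) =
      algebraMap (𝓞 M) (𝓞 Ω) (γ⁻¹ • a) := by
    intro a
    rw [inv_smul_eq_iff, hres, smul_inv_smul]
  have hmemP : ∀ a : 𝓞 M, algebraMap (𝓞 M) (𝓞 Ω) a ∈ Q ↔ a ∈ P := by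
    intro a
    rw [hQP.over]
    rfl
  have hQ' : (g0 • Q).IsPrime := inferInstance
  have hunder : (g0 • Q).under (𝓞 M) = Q.under (𝓞 M) := by
    ext a
    rw [Ideal.under_def, Ideal.mem_comap, Ideal.under_def, Ideal.mem_comap,
      Ideal.mem_pointwise_smul_iff_inv_smul_mem, hres', hmemP, hmemP]
    have h1 : γ⁻¹ • a - a ∈ P := (inv_mem hγ) a
    constructor
    · intro h2
      have := P.sub_mem h2 h1
      rwa [sub_sub_cancel] at this
    · intro h2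
      have := P.add_mem h1 h2
      rwa [sub_add_cancel] at this
  obtain ⟨h, hh⟩ := Algebra.IsInvariant.exists_smul_of_under_eq_of_profinite
    (A := 𝓞 M) (G := M.fixingSubgroup) (g0 • Q) Q hunder
  set g1 : Gal(Ω/F) := h.1 * g0 with hg1
  have hg1Q : g1 • Q = Q := by
    rw [hg1, mul_smul]
    exact hh.symm
  have hres1 : ∀ a : 𝓞 M, g1 • (algebraMap (𝓞 M) (𝓞 Ω) a) =
      algebraMap (𝓞 M) (𝓞 Ω) (γ • a) := by
    intro a
    rw [hg1, mul_smul, hres]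
    exact smul_algebraMap h (γ • a)
  have hmap : Q = Q.map (MulSemiringAction.toRingEquiv Gal(Ω/F) (𝓞 Ω) g1 : 𝓞 Ω →+* 𝓞 Ω) := by
    conv_lhs => rw [← hg1Q]
    rw [Ideal.pointwise_smul_def]
    rfl
  let σ : (𝓞 Ω ⧸ Q) ≃ₐ[𝓞 M ⧸ P] (𝓞 Ω ⧸ Q) :=
    AlgEquiv.ofRingEquiv (f := Ideal.quotientEquiv Q Q
      (MulSemiringAction.toRingEquiv Gal(Ω/F) (𝓞 Ω) g1) hmap) (by
      intro a
      obtain ⟨a, rfl⟩ := Ideal.Quotient.mk_surjective a
      show Ideal.Quotient.mk Q (g1 • algebraMap (𝓞 M) (𝓞 Ω) a) =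
        Ideal.Quotient.mk Q (algebraMap (𝓞 M) (𝓞 Ω) a)
      rw [Ideal.Quotient.mk_eq_mk_iff_sub_mem, hres1, ← map_sub, hmemP]
      exact hγ a)
  obtain ⟨k, hk⟩ := Ideal.Quotient.stabilizerHom_surjective_of_profinite
    (G := M.fixingSubgroup) P Q σ
  have hk' : ∀ x : 𝓞 Ω, g1 • x - k.1.1 • x ∈ Q := by
    intro x
    have h1 := DFunLike.congr_fun hk (Ideal.Quotient.mk Q x)
    rw [Ideal.Quotient.stabilizerHom_apply] at h1
    rw [← Ideal.Quotient.mk_eq_mk_iff_sub_mem]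
    exact h1.symm
  have hk1 : AlgEquiv.restrictNormalHom M k.1.1 = 1 := by
    rw [← MonoidHom.mem_ker, M.restrictNormalHom_ker]
    exact k.1.2
  have hh1 : AlgEquiv.restrictNormalHom M h.1 = 1 := by
    rw [← MonoidHom.mem_ker, M.restrictNormalHom_ker]
    exact h.2
  obtain ⟨k1, hkU, hkQ, hk'⟩ : ∃ k1 : Gal(Ω/F), AlgEquiv.restrictNormalHom M k1 = 1 ∧ k1 • Q = Q ∧
      ∀ x : 𝓞 Ω, g1 • x - k1 • x ∈ Q := ⟨k.1.1, hk1, k.2, hk'⟩
  refine ⟨k1⁻¹ * g1, fun x => ?_, ?_⟩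
  · have h1 := hk' x
    rw [← hkQ, Ideal.mem_pointwise_smul_iff_inv_smul_mem, smul_sub, inv_smul_smul,
      ← mul_smul] at h1
    exact h1
  · rw [hg1, map_mul, map_inv, map_mul, hkU, hh1, hg0, inv_one, one_mul, one_mul]

end

/-! ### the center of a valuation ring -/

/-- algebraic integers in the maximal ideal -/
def cen (w : ValuationSubring Qb) : Ideal (𝓞 Qb) where
  carrier := {x | (x : Qb) ∈ w.nonunits}
  add_mem' := fun {a b} ha hb => by
    show ((a : Qb) + (b : Qb)) ∈ w.nonunits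
    exact add_mem ha hb
  zero_mem' := by
    show (0 : Qb) ∈ w.nonunits
    exact zero_mem _
  smul_mem' := fun c x hx => by
    show (c : Qb) * (x : Qb) ∈ w.nonunits
    rw [mul_comm]
    exact mul_nonunits hx (integral_mem w c.2)

theorem mem_cen {w : ValuationSubring Qb} {x : 𝓞 Qb} : x ∈ cen w ↔ (x : Qb) ∈ w.nonunits := Iff.rfl

theorem one_not_nonunit (w : ValuationSubring Qb) : (1 : Qb) ∉ w.nonunits := by
  rw [ValuationSubring.mem_nonunits_iff, map_one]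
  exact lt_irrefl _

theorem cen_prime (w : ValuationSubring Qb) : (cen w).IsPrime := by
  constructor
  · intro h
    have h1 : (1 : 𝓞 Qb) ∈ cen w := by rw [h]; trivial
    exact one_not_nonunit w h1
  · intro x y hxy
    have hxy' : (x : Qb) * (y : Qb) ∈ w.nonunits := hxy
    rw [ValuationSubring.mem_nonunits_iff, map_mul] at hxy'
    rw [mem_cen, mem_cen, ValuationSubring.mem_nonunits_iff, ValuationSubring.mem_nonunits_iff]
    by_contra h
    push Not at h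
    exact absurd hxy' (not_lt.2 (one_le_mul h.1 h.2))

theorem p_mem_cen {p : ℕ} {w : ValuationSubring Qb} (hw : (p : Qb) ∈ w.nonunits) :
    (p : 𝓞 Qb) ∈ cen w := by
  have h : (((p : 𝓞 Qb)) : Qb) = (p : Qb) := map_natCast (algebraMap (𝓞 Qb) Qb) p
  rw [mem_cen, h]
  exact hw

theorem cen_max {p : ℕ} (hp : p.Prime) {w : ValuationSubring Qb} (hw : (p : Qb) ∈ w.nonunits) :
    (cen w).IsMaximal := by
  have := cen_prime w
  refine Ideal.isMaximal_of_isIntegral_of_isMaximal_comap (R := ℤ) (cen w) ?_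
  have hpr : ((cen w).comap (algebraMap ℤ (𝓞 Qb))).IsPrime := Ideal.comap_isPrime _ _
  refine hpr.isMaximal ?_
  intro h
  have h1 : (p : ℤ) ∈ (cen w).comap (algebraMap ℤ (𝓞 Qb)) := by
    rw [Ideal.mem_comap, map_natCast]
    exact p_mem_cen hw
  rw [h, Ideal.mem_bot] at h1
  exact hp.ne_zero (by exact_mod_cast h1)

/-- A valuation ring above `p` is the localization of the algebraic integers at its center. -/
theorem frac {p : ℕ} (hp : p.Prime) {w : ValuationSubring Qb} (hw : (p : Qb) ∈ w.nonunits)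
    {x : Qb} (hx : x ∈ w) : ∃ b c : 𝓞 Qb, c ∉ cen w ∧ x * (c : Qb) = (b : Qb) := by
  have hcp := cen_prime w
  have hfd : FiniteDimensional ℚ ℚ⟮x⟯ :=
    adjoin.finiteDimensional (Algebra.IsIntegral.isIntegral x)
  have hnf : NumberField ℚ⟮x⟯ := ⟨⟩
  let i : 𝓞 ℚ⟮x⟯ →+* 𝓞 Qb := algebraMap (𝓞 ℚ⟮x⟯) (𝓞 Qb)
  have hi : ∀ y : 𝓞 ℚ⟮x⟯, ((i y : 𝓞 Qb) : Qb) = ((y : ℚ⟮x⟯) : Qb) := fun _ => rfl
  let P : Ideal (𝓞 ℚ⟮x⟯) := (cen w).comap i
  have hP : P.IsPrime := Ideal.comap_isPrime _ _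
  have hP0 : P ≠ ⊥ := by
    intro h
    have h1 : (p : 𝓞 ℚ⟮x⟯) ∈ P := by
      show i (p : 𝓞 ℚ⟮x⟯) ∈ cen w
      rw [map_natCast]
      exact p_mem_cen hw
    rw [h, Ideal.mem_bot] at h1
    exact hp.ne_zero (by exact_mod_cast h1)
  have hdvr : IsDiscreteValuationRing (Localization.AtPrime P) :=
    IsLocalization.AtPrime.isDiscreteValuationRing_of_dedekind_domain (𝓞 ℚ⟮x⟯) hP0 _
  obtain ⟨a, b, hb, hab⟩ := IsFractionRing.div_surjective (A := 𝓞 ℚ⟮x⟯)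
    (⟨x, mem_adjoin_simple_self ℚ x⟩ : ℚ⟮x⟯)
  have hb0 : b ≠ 0 := nonZeroDivisors.ne_zero hb
  have hb0' : (i b : Qb) ≠ 0 := by
    rw [hi]
    intro h
    apply hb0
    apply RingOfIntegers.ext
    apply Subtype.ext
    exact h
  have hxab : x * (i b : Qb) = (i a : Qb) := by
    have h1 := congrArg (fun z : ℚ⟮x⟯ => (z : Qb)) hab
    have h2 : (i a : Qb) / (i b : Qb) = x := by
      rw [hi, hi]
      exact h1
    rw [div_eq_iff hb0'] at h2
    exact h2.symm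
  have hkey : ∃ s t : 𝓞 ℚ⟮x⟯, t ∉ P ∧ (a * s = b * t ∨ b * s = a * t) := by
    obtain ⟨c, hc⟩ := ValuationRing.cond
      (algebraMap (𝓞 ℚ⟮x⟯) (Localization.AtPrime P) a)
      (algebraMap (𝓞 ℚ⟮x⟯) (Localization.AtPrime P) b)
    obtain ⟨s, t, hst⟩ := IsLocalization.exists_mk'_eq P.primeCompl c
    have hinj : Function.Injective (algebraMap (𝓞 ℚ⟮x⟯) (Localization.AtPrime P)) :=
      IsLocalization.injective _ P.primeCompl_le_nonZeroDivisors
    have h1 : c * algebraMap (𝓞 ℚ⟮x⟯) (Localization.AtPrime P) t =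
        algebraMap (𝓞 ℚ⟮x⟯) (Localization.AtPrime P) s := by
      rw [← hst]
      exact IsLocalization.mk'_spec _ s t
    refine ⟨s, t, t.2, ?_⟩
    rcases hc with hc | hc
    · left
      apply hinj
      rw [map_mul, map_mul, ← h1, ← hc]
      ring
    · right
      apply hinj
      rw [map_mul, map_mul, ← h1, ← hc]
      ring
  obtain ⟨s, t, ht, h⟩ := hkey
  have ht' : i t ∉ cen w := ht
  rcases h with h | h
  · -- `x = t / s`
    have h1 : x * (i s : Qb) = (i t : Qb) := by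
      have h2 := congrArg (fun z : 𝓞 ℚ⟮x⟯ => (i z : Qb)) h
      have h3 : (i a : Qb) * (i s : Qb) = (i b : Qb) * (i t : Qb) := by
        have e1 : (i (a * s) : Qb) = (i a : Qb) * (i s : Qb) := by rw [map_mul]; rfl
        have e2 : (i (b * t) : Qb) = (i b : Qb) * (i t : Qb) := by rw [map_mul]; rfl
        rw [← e1, ← e2]
        exact h2
      rw [← hxab] at h3
      apply mul_left_cancel₀ hb0'
      linear_combination h3
    refine ⟨i t, i s, fun hs => ht' ?_, h1⟩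
    rw [mem_cen, ← h1, mul_comm]
    exact mul_nonunits hs hx
  · refine ⟨i s, i t, ht', ?_⟩
    have h2 := congrArg (fun z : 𝓞 ℚ⟮x⟯ => (i z : Qb)) h
    have h3 : (i b : Qb) * (i s : Qb) = (i a : Qb) * (i t : Qb) := by
      have e1 : (i (b * s) : Qb) = (i b : Qb) * (i s : Qb) := by rw [map_mul]; rfl
      have e2 : (i (a * t) : Qb) = (i a : Qb) * (i t : Qb) := by rw [map_mul]; rfl
      rw [← e1, ← e2]
      exact h2
    rw [← hxab] at h3
    apply mul_left_cancel₀ hb0'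
    linear_combination -h3

/-- Automorphisms which act trivially modulo the center are in the inertia group. -/
theorem mem_inertia_of_cen {p : ℕ} (hp : p.Prime) {w : ValuationSubring Qb}
    (hw : (p : Qb) ∈ w.nonunits) {τ : Gal(Qb/ℚ)} (h : ∀ x : 𝓞 Qb, τ • x - x ∈ cen w) :
    τ ∈ inertia w := by
  have hcp := cen_prime w
  have key : ∀ σ : Gal(Qb/ℚ), (∀ x : 𝓞 Qb, σ • x - x ∈ cen w) → ∀ x ∈ w,
      σ x ∈ w ∧ σ x - x ∈ w.nonunits := by
    intro σ hσ x hx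
    obtain ⟨b, c, hc, hbc⟩ := frac hp hw hx
    have hσc : σ • c ∉ cen w := by
      intro h1
      apply hc
      have h2 := (cen w).sub_mem h1 (hσ c)
      rwa [sub_sub_cancel] at h2
    have hunit : ∀ c : 𝓞 Qb, c ∉ cen w → (c : Qb) ≠ 0 ∧ ((c : Qb))⁻¹ ∈ w := by
      intro c hc
      rw [mem_cen, ValuationSubring.mem_nonunits_iff_or, not_or, not_not] at hc
      exact hc
    obtain ⟨hc0, hci⟩ := hunit c hc
    obtain ⟨hd0, hdi⟩ := hunit (σ • c) hσc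
    have e1 : x = (b : Qb) * ((c : Qb))⁻¹ := by
      rw [← hbc, mul_inv_cancel_right₀ hc0]
    have e2 : σ x = ((σ • b : 𝓞 Qb) : Qb) * (((σ • c : 𝓞 Qb) : Qb))⁻¹ := by
      rw [coe_smul, coe_smul, ← map_inv₀, ← map_mul, ← e1]
    refine ⟨?_, ?_⟩
    · rw [e2]
      exact w.mul_mem _ _ (integral_mem w (σ • b).2) hdi
    · have e3 : σ x - x = (((σ • b - b : 𝓞 Qb) : Qb) * (c : Qb) -
          ((σ • c - c : 𝓞 Qb) : Qb) * (b : Qb)) * (((c : Qb))⁻¹ * (((σ • c : 𝓞 Qb) : Qb))⁻¹) := by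
        have e4 : ((σ • b - b : 𝓞 Qb) : Qb) = ((σ • b : 𝓞 Qb) : Qb) - (b : Qb) := rfl
        have e5 : ((σ • c - c : 𝓞 Qb) : Qb) = ((σ • c : 𝓞 Qb) : Qb) - (c : Qb) := rfl
        rw [e2, e4, e5]
        conv_lhs => rw [e1]
        field_simp
        ring
      rw [e3]
      refine mul_nonunits (sub_mem (mul_nonunits (hσ b) (integral_mem w c.2))
        (mul_nonunits (hσ c) (integral_mem w b.2))) (w.mul_mem _ _ hci hdi)
  have hinv : ∀ x : 𝓞 Qb, τ⁻¹ • x - x ∈ cen w := by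
    have h1 : ∀ y ∈ cen w, τ⁻¹ • y ∈ cen w := by
      intro y hy
      have h2 := h (τ⁻¹ • y)
      rw [smul_inv_smul] at h2
      have h3 := (cen w).sub_mem hy h2
      rwa [sub_sub_cancel] at h3
    intro x
    have h2 := h1 _ (h x)
    rw [smul_sub, inv_smul_smul] at h2
    rw [← neg_sub]
    exact (cen w).neg_mem h2
  refine ⟨?_, fun x hx => (key τ h x hx).2⟩
  ext x
  rw [ValuationSubring.mem_pointwise_smul_iff_inv_smul_mem]
  constructor
  · intro hx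
    have h1 := (key τ h _ hx).1
    have h2 : τ (τ⁻¹ • x) = x := by
      show τ (τ⁻¹ x) = x
      rw [← AlgEquiv.mul_apply, mul_inv_cancel, AlgEquiv.one_apply]
    rwa [h2] at h1
  · intro hx
    exact (key τ⁻¹ hinv x hx).1

/-! ### total ramification -/

theorem root_sub_one_mem {R : Type} [CommRing R] {P : Ideal R} (hP : P.IsPrime) {p : ℕ}
    (hp : p.Prime) (hpP : (p : R) ∈ P) {n : ℕ} {z : R} (hz : z ^ p ^ n = 1) : z - 1 ∈ P := by
  have hf : Fact p.Prime := ⟨hp⟩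
  have hd : IsDomain (R ⧸ P) := Ideal.Quotient.isDomain P
  have hc : CharP (R ⧸ P) p := by
    rw [CharP.charP_iff_prime_eq_zero hp, ← map_natCast (Ideal.Quotient.mk P),
      Ideal.Quotient.eq_zero_iff_mem]
    exact hpP
  rw [← Ideal.Quotient.eq_zero_iff_mem]
  have h1 : (Ideal.Quotient.mk P (z - 1)) ^ p ^ n = 0 := by
    rw [map_sub, map_one, sub_pow_char_pow, ← map_pow, hz, map_one, one_pow, sub_self]
  exact (pow_eq_zero_iff (pow_pos hp.pos n).ne').1 h1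

theorem total {F L : Type} [Field F] [Field L] [Algebra F L] {p n : ℕ} (hp : p.Prime)
    {P : Ideal (𝓞 L)} (hP : P.IsPrime) (hpP : (p : 𝓞 L) ∈ P) {z : 𝓞 L} (hz1 : z ^ p ^ n = 1)
    (hgen : ∀ x : 𝓞 L, ∃ f : Polynomial ℤ, x = Polynomial.aeval z f) (γ : L ≃ₐ[F] L) :
    γ ∈ P.inertia (L ≃ₐ[F] L) := by
  intro x
  obtain ⟨f, hf⟩ := hgen x
  have hz2 : (γ • z) ^ p ^ n = 1 := by
    rw [← smul_pow', hz1, smul_one]
  have h3 : γ • x = Polynomial.aeval (γ • z) f := by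
    rw [hf]
    have h4 := Polynomial.map_aeval_eq_aeval_map (φ := RingHom.id ℤ)
      (ψ := (MulSemiringAction.toRingHom (L ≃ₐ[F] L) (𝓞 L) γ)) (RingHom.ext_int _ _) f z
    simpa using h4
  have h5 : γ • x - x = Polynomial.eval (γ • z) (f.map (algebraMap ℤ (𝓞 L))) -
      Polynomial.eval z (f.map (algebraMap ℤ (𝓞 L))) := by
    rw [Polynomial.eval_map_algebraMap, Polynomial.eval_map_algebraMap, ← h3, ← hf]
  obtain ⟨t, ht⟩ := Polynomial.sub_dvd_eval_sub (γ • z) z (f.map (algebraMap ℤ (𝓞 L)))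
  rw [h5, ht]
  apply P.mul_mem_right
  have h6 := P.sub_mem (root_sub_one_mem hP hp hpP hz2) (root_sub_one_mem hP hp hpP hz1)
  rwa [sub_sub_sub_cancel_right] at h6

theorem tram_gen {F Ω : Type} [Field F] [Field Ω] [Algebra F Ω] [IsGalois F Ω]
    (M : IntermediateField F Ω) [NumberField M] [IsGalois F M] (Q : Ideal (𝓞 Ω))
    (hQ : Q.IsMaximal) {p n : ℕ} (hp : p.Prime) (hpQ : (p : 𝓞 Ω) ∈ Q) {z : 𝓞 M}
    (hz1 : z ^ p ^ n = 1) (hgen : ∀ x : 𝓞 M, ∃ f : Polynomial ℤ, x = Polynomial.aeval z f)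
    (g : Gal(Ω/F)) :
    ∃ τ : Gal(Ω/F), (∀ x : 𝓞 Ω, τ • x - x ∈ Q) ∧ τ⁻¹ * g ∈ M.fixingSubgroup := by
  have hint : Algebra.IsIntegral (𝓞 M) (𝓞 Ω) := Algebra.IsIntegral.tower_top (R := ℤ)
  let P : Ideal (𝓞 M) := Q.under (𝓞 M)
  have hPm : P.IsMaximal := Ideal.IsMaximal.under (𝓞 M) Q
  have hpP : (p : 𝓞 M) ∈ P := by
    show algebraMap (𝓞 M) (𝓞 Ω) (p : 𝓞 M) ∈ Q
    rw [map_natCast]
    exact hpQ
  obtain ⟨τ, hτ, hτg⟩ := lift_inertia M P Q hQ ⟨rfl⟩
    (AlgEquiv.restrictNormalHom M g) (total hp hPm.isPrime hpP hz1 hgen _)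
  refine ⟨τ, hτ, ?_⟩
  rw [← M.restrictNormalHom_ker, MonoidHom.mem_ker, map_mul, map_inv, hτg, inv_mul_cancel]

theorem gen_cyc {L : Type} [Field L] [NumberField L] {p k : ℕ} (hp : p.Prime)
    [hcyc : IsCyclotomicExtension {p ^ (k + 1)} ℚ L] : ∃ z : 𝓞 L, z ^ p ^ (k + 1) = 1 ∧
      ∀ x : 𝓞 L, ∃ f : Polynomial ℤ, x = Polynomial.aeval z f := by
  have hf : Fact p.Prime := ⟨hp⟩
  have hne : p ^ (k + 1) ≠ 0 := (pow_pos hp.pos _).ne'
  have hnz : NeZero (p ^ (k + 1)) := ⟨hne⟩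
  have hζ := IsCyclotomicExtension.zeta_spec (p ^ (k + 1)) ℚ L
  refine ⟨hζ.toInteger, hζ.toInteger_isPrimitiveRoot.pow_eq_one, fun x => ?_⟩
  obtain ⟨f, hf⟩ := (hζ.integralPowerBasisOfPrimePow).exists_eq_aeval' x
  rw [hζ.integralPowerBasisOfPrimePow_gen] at hf
  exact ⟨f, hf⟩

theorem tram_field {p : ℕ} (hp : p.Prime) {w : ValuationSubring Qb} (hw : (p : Qb) ∈ w.nonunits)
    (k : ℕ) (M : IntermediateField ℚ Qb) [NumberField M] [hg : IsGalois ℚ M]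
    [IsCyclotomicExtension {p ^ (k + 1)} ℚ M] (g : Gal(Qb/ℚ)) :
    ∃ σ ∈ inertia w, σ⁻¹ * g ∈ M.fixingSubgroup := by
  obtain ⟨z, hz, hgen⟩ := gen_cyc (L := M) hp (k := k)
  have hg' : @IsGalois ℚ _ M _ M.algebra' := by
    convert hg
    exact Subsingleton.elim _ _
  have hgal : IsGalois ℚ Qb := inferInstance
  obtain ⟨τ, hτ, h⟩ := tram_gen (F := ℚ) (Ω := Qb) M (cen w) (cen_max hp hw) hp (p_mem_cen hw) hz
    hgen g
  exact ⟨τ, mem_inertia_of_cen hp hw hτ, h⟩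

theorem tram_succ {p : ℕ} (hp : p.Prime) {w : ValuationSubring Qb} (hw : (p : Qb) ∈ w.nonunits)
    (k : ℕ) (g : Gal(Qb/ℚ)) :
    ∃ σ ∈ inertia w, σ⁻¹ * g ∈ (adjoin ℚ {z : Qb | z ^ p ^ (k + 1) = 1}).fixingSubgroup := by
  have hf : Fact p.Prime := ⟨hp⟩
  have hne : p ^ (k + 1) ≠ 0 := (pow_pos hp.pos _).ne'
  have hnz : NeZero (p ^ (k + 1)) := ⟨hne⟩
  obtain ⟨ζ, hζ⟩ := HasEnoughRootsOfUnity.exists_primitiveRoot Qb (p ^ (k + 1))
  have heq : adjoin ℚ {z : Qb | z ^ p ^ (k + 1) = 1} = adjoin ℚ {ζ} := by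
    apply le_antisymm
    · rw [adjoin_le_iff]
      intro z hz
      obtain ⟨m, -, rfl⟩ := hζ.eq_pow_of_pow_eq_one hz
      exact pow_mem (mem_adjoin_simple_self ℚ ζ) m
    · rw [adjoin_le_iff]
      rintro z rfl
      exact subset_adjoin _ _ hζ.pow_eq_one
  rw [heq]
  have hcyc : IsCyclotomicExtension {p ^ (k + 1)} ℚ (adjoin ℚ {ζ}) :=
    hζ.intermediateField_adjoin_isCyclotomicExtension ℚ
  have hnf : NumberField (adjoin ℚ {ζ}) := IsCyclotomicExtension.numberField {p ^ (k + 1)} ℚ _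
  have hgal : IsGalois ℚ (adjoin ℚ {ζ}) := IsCyclotomicExtension.isGalois {p ^ (k + 1)} ℚ _
  exact tram_field hp hw k (adjoin ℚ {ζ}) g

theorem t_TRAM : Pool.Agent.V5helper60.GM.S_TRAM := by
  intro p hp w hw N g
  obtain ⟨σ, hσ, h⟩ := tram_succ hp hw N g
  refine ⟨σ, hσ, fixingSubgroup_le ?_ h⟩
  apply adjoin.mono
  intro z hz
  show z ^ p ^ (N + 1) = 1
  rw [pow_succ, pow_mul, show z ^ p ^ N = 1 from hz, one_pow]

end Pool.Agent.V5helper69.GM.TRAM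

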